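import Pool.Agent.Lib.MP_ea4949_co.Final

/-!
The bounds of `Main.lean` and `CaseB.lean` (helper70) with the factor `2 ^ (n ^ 3)` replaced by the
doubly exponential factor `2 ^ (2 ^ n / n ^ 6)`, and with the number of sparse paving matroids of
the same rank on the right hand side.
-/

set_option autoImplicit false
set_option linter.unusedSectionVars false
set_option linter.unusedVariables false

namespace Pool.Agent.Lib.MP_ea4949_co.H23

open Finset Pool.Agent.Lib.MP_ea4949_co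
open scoped Pointwise

/-- Final combination. -/
lemma final_leW {W g G : ℕ} {D O I F Sg : ℝ} {s L u : ℝ} (hL1 : 10000 ≤ L)
    (hsL : 1000000 * L ^ 5 ≤ s) (hu : 1 ≤ u) (hnu : (W : ℝ) ≤ u)
    (hD0 : 0 ≤ D) (hI0 : 0 ≤ I) (hF0 : 0 ≤ F) (hS0 : 0 ≤ Sg)
    (hD : D ≤ Real.exp (250 * (u * s * L ^ 3))) (hS : Sg ≤ Real.exp (3 * (u * s * L ^ 5)))
    (hO : O * 2 ^ g ≤ I + F * Sg * 2 ^ g) (hF : F * 2 ^ G ≤ 3200 * I)
    (hg : u * s * L ^ 4 ≤ g) (hG : u * s ^ 2 / 15000 ≤ G) :
    D * O * 2 ^ W ≤ I := by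
  have hL0 : (0 : ℝ) < L := by linarith
  have hL5 : L ≤ L ^ 5 := by
    calc L = L ^ 1 := (pow_one L).symm
      _ ≤ L ^ 5 := pow_le_pow_right₀ (by linarith) (by norm_num)
  have hs1 : 1 ≤ s := by nlinarith
  have hus : 1 ≤ u * s := by nlinarith
  have husL3 : u ≤ u * s * L ^ 3 := by
    have h13 : (1 : ℝ) ≤ L ^ 3 := one_le_pow₀ (by linarith)
    have h14 : 1 ≤ s * L ^ 3 := by nlinarith
    calc u = u * 1 := (mul_one u).symm
      _ ≤ u * (s * L ^ 3) := mul_le_mul_of_nonneg_left h14 (by linarith)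
      _ = _ := by ring
  have husL3' : 10 ≤ u * s * L ^ 3 := by
    have h13 : (10 : ℝ) ≤ L ^ 3 := by
      calc (10 : ℝ) ≤ L := by linarith
        _ = L ^ 1 := (pow_one L).symm
        _ ≤ L ^ 3 := pow_le_pow_right₀ (by linarith) (by norm_num)
    nlinarith
  have hlog2a : 0.69 < Real.log 2 := by
    have := Real.log_two_gt_d9; linarith
  have hlog2b : Real.log 2 < 1 := by
    have := Real.log_two_lt_d9; linarith
  -- power of two as an exponential
  have hexp2 : ∀ m : ℕ, (2 : ℝ) ^ m = Real.exp (m * Real.log 2) := by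
    intro m
    rw [Real.exp_nat_mul, Real.exp_log (by norm_num)]
  have hn3 : (2 : ℝ) ^ W ≤ Real.exp (u * s * L ^ 3) := by
    rw [hexp2]
    apply Real.exp_le_exp.mpr
    have : (0 : ℝ) ≤ (W : ℝ) := Nat.cast_nonneg _
    nlinarith
  set E := D * 2 ^ W with hE
  have hE0 : 0 ≤ E := by positivity
  have hE1 : E ≤ Real.exp (251 * (u * s * L ^ 3)) := by
    have : Real.exp (251 * (u * s * L ^ 3)) =
        Real.exp (250 * (u * s * L ^ 3)) * Real.exp (u * s * L ^ 3) := by
      rw [← Real.exp_add]; congr 1; ring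
    rw [this, hE]
    exact mul_le_mul hD hn3 (by positivity) (Real.exp_pos _).le
  -- first inequality
  have f1 : E * 2 ≤ 2 ^ g := by
    rw [hexp2 g]
    have h2 : (2 : ℝ) ≤ Real.exp (u * s * L ^ 3) := by
      have := Real.add_one_le_exp (u * s * L ^ 3); linarith
    calc E * 2 ≤ Real.exp (251 * (u * s * L ^ 3)) * Real.exp (u * s * L ^ 3) :=
          mul_le_mul hE1 h2 (by norm_num) (Real.exp_pos _).le
      _ = Real.exp (252 * (u * s * L ^ 3)) := by rw [← Real.exp_add]; congr 1; ring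
      _ ≤ Real.exp (g * Real.log 2) := by
        apply Real.exp_le_exp.mpr
        have h3 : 10000 * (u * s * L ^ 3) ≤ u * s * L ^ 4 := by
          have : u * s * L ^ 4 = L * (u * s * L ^ 3) := by ring
          rw [this]
          apply mul_le_mul_of_nonneg_right hL1
          linarith
        have h4 : (0 : ℝ) ≤ g := Nat.cast_nonneg _
        nlinarith
  -- second inequality
  have f2 : E * Sg * 6400 ≤ 2 ^ G := by
    rw [hexp2 G]
    have h2 : (6400 : ℝ) ≤ Real.exp (u * s * L ^ 5) := by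
      have h5 := Real.add_one_le_exp (u * s * L ^ 5)
      have h6 : (6400 : ℝ) ≤ u * s * L ^ 5 := by
        have h7 : (10000 : ℝ) ≤ L ^ 5 := by linarith
        nlinarith
      linarith
    have h35 : u * s * L ^ 3 * 10000 ≤ u * s * L ^ 5 := by
      have : u * s * L ^ 5 = u * s * L ^ 3 * L ^ 2 := by ring
      rw [this]
      apply mul_le_mul_of_nonneg_left _ (by linarith)
      nlinarith
    calc E * Sg * 6400 ≤ Real.exp (251 * (u * s * L ^ 3)) * Real.exp (3 * (u * s * L ^ 5)) *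
          Real.exp (u * s * L ^ 5) := by
          apply mul_le_mul (mul_le_mul hE1 hS hS0 (Real.exp_pos _).le) h2 (by norm_num)
          positivity
      _ = Real.exp (251 * (u * s * L ^ 3) + 4 * (u * s * L ^ 5)) := by
          rw [← Real.exp_add, ← Real.exp_add]; congr 1; ring
      _ ≤ Real.exp (G * Real.log 2) := by
        apply Real.exp_le_exp.mpr
        have h3 : 1000000 * (u * s * L ^ 5) ≤ u * s ^ 2 := by
          calc 1000000 * (u * s * L ^ 5) = u * s * (1000000 * L ^ 5) := by ring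
            _ ≤ u * s * s := mul_le_mul_of_nonneg_left hsL (by linarith)
            _ = u * s ^ 2 := by ring
        have h4 : (0 : ℝ) ≤ G := Nat.cast_nonneg _
        have h5 : 0 ≤ u * s * L ^ 5 := by linarith
        nlinarith
  -- conclusion
  have hg0 : (0 : ℝ) < 2 ^ g := by positivity
  have hG0 : (0 : ℝ) < 2 ^ G := by positivity
  have f3 : E * F * Sg * 2 ≤ I := by
    have h1 : (E * F * Sg * 2) * 2 ^ G ≤ I * 2 ^ G := by
      calc (E * F * Sg * 2) * 2 ^ G = (E * Sg * 2) * (F * 2 ^ G) := by ring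
        _ ≤ (E * Sg * 2) * (3200 * I) := by
          apply mul_le_mul_of_nonneg_left hF (by positivity)
        _ = (E * Sg * 6400) * I := by ring
        _ ≤ 2 ^ G * I := mul_le_mul_of_nonneg_right f2 hI0
        _ = I * 2 ^ G := by ring
    exact le_of_mul_le_mul_right h1 hG0
  have f4 : (E * O) * 2 ^ g ≤ I * 2 ^ g := by
    calc (E * O) * 2 ^ g = E * (O * 2 ^ g) := by ring
      _ ≤ E * (I + F * Sg * 2 ^ g) := mul_le_mul_of_nonneg_left hO hE0
      _ = (E * I) + (E * F * Sg) * 2 ^ g := by ring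
      _ ≤ (2 ^ g / 2) * I + (I / 2) * 2 ^ g := by
        apply add_le_add
        · apply mul_le_mul_of_nonneg_right _ hI0
          linarith
        · apply mul_le_mul_of_nonneg_right _ hg0.le
          linarith
      _ = I * 2 ^ g := by ring
  calc D * O * 2 ^ W = E * O := by rw [hE]; ring
    _ ≤ I := le_of_mul_le_mul_right f4 hg0

/-- The main bound in the central range. -/
theorem case_BW {m₀ : ℕ} (hm₀ : HalfBound m₀) {n : ℕ} (hn : m₀ + 2 ≤ n)
    (hL1 : 10000 ≤ Real.log n) (hsL : 1000000 * (Real.log n) ^ 5 ≤ Real.sqrt n)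
    (σ : Equiv.Perm (Fin n)) (hσ : σ ≠ 1) {r : ℕ} (hr : r ≤ n)
    (hK : n.choose (n / 2) ≤ n ^ 2 * n.choose r) :
    (1 ≤ r ∧ r + 1 ≤ n) ∧ (invBF σ r).card * 2 ^ (2 ^ n / n ^ 6) ≤
      (indSets (JG (Fin n)) ((univ : Finset (Fin n)).powersetCard r)).card := by
  classical
  set L := Real.log n with hL
  set s := Real.sqrt n with hs
  have hL0 : (0 : ℝ) < L := by linarith
  have hL5 : L ≤ L ^ 5 := by
    calc L = L ^ 1 := (pow_one L).symm
      _ ≤ L ^ 5 := pow_le_pow_right₀ (by linarith) (by norm_num)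
  have hsL1 : 1000000 * L ≤ s := by linarith
  have hs1 : 10000000000 ≤ s := by linarith
  have hs2 : s ^ 2 = n := Real.sq_sqrt (Nat.cast_nonneg _)
  have hnR : (1000000000000 : ℝ) ≤ n := by rw [← hs2]; nlinarith
  have hnN : 1000000000000 ≤ n := by exact_mod_cast hnR
  have hn0 : (0 : ℝ) < n := by linarith
  have hexpL : Real.exp L = n := by rw [hL, Real.exp_log hn0]
  have hexpLk : ∀ k : ℕ, Real.exp (k * L) = (n : ℝ) ^ k := by
    intro k; rw [Real.exp_nat_mul, hexpL]
  have hlog2a : 0.69 < Real.log 2 := by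
    have := Real.log_two_gt_d9; linarith
  -- size of the power of two
  have h2n : (n : ℝ) ^ 100 ≤ 2 ^ n := by
    rw [← hexpLk 100]
    have : (2 : ℝ) ^ n = Real.exp (n * Real.log 2) := by
      rw [Real.exp_nat_mul, Real.exp_log (by norm_num)]
    rw [this]
    apply Real.exp_le_exp.mpr
    push_cast
    have h1 : 1000000 * L ≤ n := by rw [← hs2]; nlinarith
    nlinarith
  set K := n.choose r with hKdef
  have hKpos : 0 < K := Nat.choose_pos hr
  have hK1 : (2 : ℝ) ^ n ≤ (n : ℝ) ^ 4 * K := by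
    have h1 : 2 ^ n ≤ n ^ 4 * K := by
      calc 2 ^ n ≤ (n + 1) * n.choose (n / 2) := two_pow_le n
        _ ≤ (n + 1) * (n ^ 2 * K) := Nat.mul_le_mul_left _ hK
        _ ≤ n ^ 2 * (n ^ 2 * K) := Nat.mul_le_mul_right _ (by nlinarith)
        _ = n ^ 4 * K := by ring
    exact_mod_cast h1
  have hK2 : (n : ℝ) ^ 96 ≤ K := by
    have h1 : (n : ℝ) ^ 4 * (n : ℝ) ^ 96 ≤ (n : ℝ) ^ 4 * K := by
      rw [← pow_add]
      exact h2n.trans hK1
    exact le_of_mul_le_mul_left h1 (by positivity)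
  -- the width
  set w := ⌈s * L⌉₊ with hw
  have hw1 : s * L ≤ w := Nat.le_ceil _
  have hw2 : (w : ℝ) ≤ s * L + 1 := (Nat.ceil_lt_add_one (by positivity)).le
  have hwn : 1000 * (w : ℝ) + 2000 ≤ n := by
    have h1 : 1000000 * (s * L) ≤ n := by rw [← hs2]; nlinarith
    linarith
  have hwN : 1000 * w + 2000 ≤ n := by exact_mod_cast hwn
  obtain ⟨ρ, hρ⟩ : ∃ ρ, ρ + w = n / 2 := ⟨n / 2 - w, by omega⟩
  obtain ⟨t, ht⟩ : ∃ t, t + 2 * ρ = n := ⟨n - 2 * ρ, by omega⟩
  have htw : t ≤ 2 * w + 1 := by omega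
  -- the tail
  set T := ∑ k ∈ range (ρ + 1), n.choose k with hT
  have htail : (T : ℝ) * (n : ℝ) ^ 96 ≤ K := by
    have h1 := tail_le (n := n) (ρ := ρ) (w := w) (by omega) (by omega)
    rw [← hT] at h1
    have h2 : Real.exp (-(2 * (w : ℝ) ^ 2 / n)) ≤ Real.exp (-(100 * L)) := by
      apply Real.exp_le_exp.mpr
      apply neg_le_neg
      rw [le_div_iff₀ hn0]
      have h3 : (s * L) ^ 2 ≤ (w : ℝ) ^ 2 := pow_le_pow_left₀ (by positivity) hw1 2
      have h4 : (s * L) ^ 2 = n * L ^ 2 := by rw [mul_pow, hs2]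
      rw [h4] at h3
      have h5 : (n : ℝ) * (L * 10000) ≤ n * L ^ 2 := by
        apply mul_le_mul_of_nonneg_left _ hn0.le
        nlinarith
      have h6 : 0 ≤ (n : ℝ) * L := by positivity
      nlinarith
    have h7 : Real.exp (-(100 * L)) * (n : ℝ) ^ 100 = 1 := by
      rw [← hexpLk 100, ← Real.exp_add]
      push_cast
      rw [neg_add_cancel, Real.exp_zero]
    have h8 : ((T : ℝ) * (n : ℝ) ^ 96) * (n : ℝ) ^ 4 ≤ K * (n : ℝ) ^ 4 := by
      calc ((T : ℝ) * (n : ℝ) ^ 96) * (n : ℝ) ^ 4 = T * (n : ℝ) ^ 100 := by ring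
        _ ≤ (2 ^ n * Real.exp (-(100 * L))) * (n : ℝ) ^ 100 := by
          apply mul_le_mul_of_nonneg_right _ (by positivity)
          exact h1.trans (mul_le_mul_of_nonneg_left h2 (by positivity))
        _ = 2 ^ n * (Real.exp (-(100 * L)) * (n : ℝ) ^ 100) := by ring
        _ = 2 ^ n := by rw [h7, mul_one]
        _ ≤ (n : ℝ) ^ 4 * K := hK1
        _ = K * (n : ℝ) ^ 4 := by ring
    exact le_of_mul_le_mul_right h8 (by positivity)
  have hn96 : (2 : ℝ) ≤ (n : ℝ) ^ 96 := by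
    calc (2 : ℝ) ≤ n := by linarith
      _ = (n : ℝ) ^ 1 := (pow_one _).symm
      _ ≤ (n : ℝ) ^ 96 := pow_le_pow_right₀ (by linarith) (by norm_num)
  have hKR : (0 : ℝ) < K := by exact_mod_cast hKpos
  have hTK : T < K := by
    by_contra hcon
    push Not at hcon
    have h1 : (K : ℝ) ≤ T := by exact_mod_cast hcon
    have h2 : (T : ℝ) * 2 ≤ (T : ℝ) * (n : ℝ) ^ 96 :=
      mul_le_mul_of_nonneg_left hn96 (Nat.cast_nonneg _)
    linarith
  have hρr : ρ < r := by
    by_contra hcon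
    push Not at hcon
    have h1 : n.choose r ≤ T := by
      rw [hT]
      exact single_le_sum (f := fun k => n.choose k) (fun _ _ => Nat.zero_le _)
        (mem_range.mpr (by omega))
    omega
  have hρr' : ρ < n - r := by
    by_contra hcon
    push Not at hcon
    have h1 : n.choose (n - r) ≤ T := by
      rw [hT]
      exact single_le_sum (f := fun k => n.choose k) (fun _ _ => Nat.zero_le _)
        (mem_range.mpr (by omega))
    rw [Nat.choose_symm hr] at h1
    omega
  have hr1 : 496 * n ≤ 1000 * r := by omega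
  have hr2 : 1000 * r ≤ 504 * n := by omega
  have hρ1 : 490 * n ≤ 1000 * ρ := by omega
  have hrR1 : (0.496 : ℝ) * n ≤ r := by
    have : ((496 * n : ℕ) : ℝ) ≤ ((1000 * r : ℕ) : ℝ) := by exact_mod_cast hr1
    push_cast at this; linarith
  have hrR2 : (r : ℝ) ≤ 0.504 * n := by
    have : ((1000 * r : ℕ) : ℝ) ≤ ((504 * n : ℕ) : ℝ) := by exact_mod_cast hr2
    push_cast at this; linarith
  have hρR1 : (0.49 : ℝ) * n ≤ ρ := by
    have : ((490 * n : ℕ) : ℝ) ≤ ((1000 * ρ : ℕ) : ℝ) := by exact_mod_cast hρ1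
    push_cast at this; linarith
  -- the unit
  set u : ℝ := (K : ℝ) / (n : ℝ) ^ 2 with hu
  have hKu : (K : ℝ) = u * (n : ℝ) ^ 2 := by
    rw [hu, div_mul_cancel₀ _ (by positivity)]
  have hu94 : (n : ℝ) ^ 94 ≤ u := by
    rw [hu, le_div_iff₀ (by positivity), ← pow_add]
    exact hK2
  have hun : (((2 ^ n / n ^ 6 : ℕ) : ℕ) : ℝ) ≤ u := by
    refine (Nat.cast_div_le (α := ℝ)).trans ?_
    rw [hu, div_le_div_iff₀ (by positivity) (by positivity)]
    push_cast
    calc (2 : ℝ) ^ n * (n : ℝ) ^ 2 ≤ ((n : ℝ) ^ 4 * K) * (n : ℝ) ^ 2 :=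
          mul_le_mul_of_nonneg_right hK1 (by positivity)
      _ = K * (n : ℝ) ^ 6 := by ring
  have hu1 : 1 ≤ u := le_trans (one_le_pow₀ (by linarith)) hu94
  have hTu : (T : ℝ) ≤ u := by
    rw [hu, le_div_iff₀ (by positivity)]
    refine le_trans (mul_le_mul_of_nonneg_left ?_ (Nat.cast_nonneg _)) htail
    exact pow_le_pow_right₀ (by linarith) (by norm_num)
  -- the greedy parameters
  set κ : ℝ := (n : ℝ) ^ 2 / (20 * K) with hκ
  have hu0 : 0 < u := by linarith
  have hκu : κ = 1 / (20 * u) := by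
    rw [hκ, hKu]
    have hn2 : (n : ℝ) ^ 2 ≠ 0 := by positivity
    have hu0' : u ≠ 0 := hu0.ne'
    clear_value u
    generalize (n : ℝ) ^ 2 = z at hn2
    field_simp
  have hκ0 : 0 ≤ κ := by rw [hκu]; positivity
  have hκ1 : κ ≤ 1 := by
    rw [hκu, div_le_one (by positivity)]
    linarith
  set a := ⌈40 * L * u⌉₊ with ha
  set b := ⌈u⌉₊ with hb
  have ha1 : 40 * L * u ≤ a := Nat.le_ceil _
  have ha2 : (a : ℝ) ≤ 40 * L * u + 1 := (Nat.ceil_lt_add_one (by positivity)).le
  have hb1 : u ≤ b := Nat.le_ceil _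
  have hb2 : (b : ℝ) ≤ u + 1 := (Nat.ceil_lt_add_one (by positivity)).le
  have hab : (K : ℝ) * (1 - κ) ^ a ≤ b := by
    have h1 : (1 - κ) ^ a ≤ Real.exp (-(κ * a)) := by
      have h2 : 1 - κ ≤ Real.exp (-κ) := by
        have := Real.add_one_le_exp (-κ); linarith
      calc (1 - κ) ^ a ≤ (Real.exp (-κ)) ^ a := pow_le_pow_left₀ (by linarith) h2 a
        _ = Real.exp (-(κ * a)) := by rw [← Real.exp_nat_mul]; congr 1; ring
    have h3 : 2 * L ≤ κ * a := by
      rw [hκu, div_mul_eq_mul_div, le_div_iff₀ (by positivity)]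
      linarith
    have h4 : Real.exp (-(κ * a)) ≤ Real.exp (-(2 * L)) := Real.exp_le_exp.mpr (by linarith)
    have h5 : Real.exp (-(2 * L)) * (n : ℝ) ^ 2 = 1 := by
      rw [← hexpLk 2, ← Real.exp_add]
      push_cast
      rw [neg_add_cancel, Real.exp_zero]
    calc (K : ℝ) * (1 - κ) ^ a ≤ K * Real.exp (-(2 * L)) :=
          mul_le_mul_of_nonneg_left (h1.trans h4) hKR.le
      _ = u * (Real.exp (-(2 * L)) * (n : ℝ) ^ 2) := by rw [hKu]; ring
      _ = u := by rw [h5, mul_one]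
      _ ≤ b := hb1
  -- apply the counting bound
  have hcount := card_invBF_le σ (r := r) (ρ := ρ) (t := t) (Δ := ρ) (a := a) (b := b) hκ0 hκ1
    (fun A hA hX => hdeg_of (by omega) (by linarith) (by linarith) hρR1 A hA hX) le_rfl
    (by omega) (by rw [Fintype.card_fin]; omega) (by rw [Fintype.card_fin]; exact hab)
  rw [card_smallSets, Fintype.card_fin, ← hT] at hcount
  -- the data bound
  set M := (items (α := Fin n) r t).card with hM
  have hMle : (M : ℝ) ≤ u * (n : ℝ) ^ 2 * (2 * ((n : ℝ) + 1) ^ (2 * t)) := by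
    have h1 := card_items_le (α := Fin n) r t
    rw [Fintype.card_fin, ← hM, ← hKdef] at h1
    have h2 : (M : ℝ) ≤ ((K * (2 * (n + 1) ^ (2 * t)) : ℕ) : ℝ) := by exact_mod_cast h1
    push_cast at h2
    rw [hKu] at h2
    exact h2
  have htR : (t : ℝ) ≤ 2 * s * L + 3 := by
    have h1 : (t : ℝ) ≤ 2 * w + 1 := by exact_mod_cast htw
    linarith
  have hqR : ((a + b : ℕ) : ℝ) ≤ 42 * L * u := by
    push_cast
    have h1 : 2 * u ≤ L * u := mul_le_mul_of_nonneg_right (by linarith) hu0.le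
    linarith
  have hdata := data_le (n := n) (T := T) (M := M) (q := a + b) (t := t) hs2 rfl hL1 hsL hu1 hTu
    hMle htR hqR
  -- the choice of g
  set g := ⌈u * s * L ^ 4⌉₊ with hg
  have hg1 : u * s * L ^ 4 ≤ g := Nat.le_ceil _
  have hg2 : (g : ℝ) ≤ u * s * L ^ 4 + 1 := (Nat.ceil_lt_add_one (by positivity)).le
  have hsum := sum_g_le (n := n) (K := K) (g := g) hs2 rfl hL1 hsL hu1 hKu hg2
  -- the number of unions of orbits
  have hOm := card_image_Om_le σ ((univ : Finset (Fin n)).powersetCard r) (inv_powersetCard σ r) g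
  rw [card_powersetCard, card_univ, Fintype.card_fin, ← hKdef] at hOm
  -- the fixed sets
  obtain ⟨e, he⟩ : ∃ e, σ e ≠ e := by
    by_contra hcon
    push Not at hcon
    exact hσ (Equiv.ext hcon)
  set f := σ e with hf
  have hef : e ≠ f := fun h => he h.symm
  have hfix : ((univ : Finset (Fin n)).powersetCard r).filter (fun X => σ • X = X) ⊆
      ((univ : Finset (Fin n)).powersetCard r).filter (fun X => e ∈ X ↔ f ∈ X) := by
    intro X hX
    rw [mem_filter] at hX ⊢
    refine ⟨hX.1, ?_⟩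
    have h1 : f ∈ σ • X ↔ e ∈ X := by
      rw [hf, ← Equiv.Perm.smul_def]
      exact smul_mem_smul_finset_iff σ
    rw [hX.2] at h1
    exact h1.symm
  have hCm : (n - 2).choose (r - 1) * (n * (n - 1)) = K * (r * (n - r)) :=
    choose_rel (by omega) (by omega) (by omega)
  have hCR : 0.24 * K ≤ ((n - 2).choose (r - 1) : ℝ) := by
    have h1 : ((n - 2).choose (r - 1) : ℝ) * (n * (n - 1)) = K * (r * (n - r)) := by
      have : (((n - 2).choose (r - 1) * (n * (n - 1)) : ℕ) : ℝ) =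
          ((K * (r * (n - r)) : ℕ) : ℝ) := by rw [hCm]
      push_cast [Nat.cast_sub (show 1 ≤ n by omega), Nat.cast_sub hr] at this
      exact this
    have h2 : (0.24 * K) * ((n : ℝ) * (n - 1)) ≤
        ((n - 2).choose (r - 1) : ℝ) * (n * (n - 1)) := by
      rw [h1]
      have h3 : (0.24 : ℝ) * (n * (n - 1)) ≤ r * (n - r) := by nlinarith
      calc (0.24 * K) * ((n : ℝ) * (n - 1)) = K * (0.24 * (n * (n - 1))) := by ring
        _ ≤ K * (r * (n - r)) := mul_le_mul_of_nonneg_left h3 hKR.le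
    exact le_of_mul_le_mul_right h2 (mul_pos hn0 (by linarith))
  have hC3 : (n - 2) ^ 3 ≤ (n - 2).choose (r - 1) := by
    have h1 : ((n ^ 3 : ℕ) : ℝ) ≤ (((n - 2).choose (r - 1) : ℕ) : ℝ) := by
      push_cast
      refine le_trans ?_ hCR
      have h2 : (n : ℝ) ^ 3 * 5 ≤ K := by
        refine le_trans ?_ hK2
        calc (n : ℝ) ^ 3 * 5 ≤ (n : ℝ) ^ 3 * n :=
              mul_le_mul_of_nonneg_left (by linarith) (by positivity)
          _ = (n : ℝ) ^ 4 := by ring
          _ ≤ (n : ℝ) ^ 96 := pow_le_pow_right₀ (by linarith) (by norm_num)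
      linarith
    have h2 : n ^ 3 ≤ (n - 2).choose (r - 1) := by exact_mod_cast h1
    exact (Nat.pow_le_pow_left (by omega) 3).trans h2
  have hext := ext_case hm₀ hn (by omega) hr1 hr2 hC3 e f hef
  set G := (n - 2).choose (r - 1) / (3200 * (n - 2)) with hG
  have hGR : u * s ^ 2 / 15000 ≤ G := by
    have h1 : (n - 2).choose (r - 1) < (G + 1) * (3200 * (n - 2)) := by
      have h2 := Nat.lt_div_mul_add (a := (n - 2).choose (r - 1)) (b := 3200 * (n - 2)) (by omega)
      rw [← hG] at h2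
      rw [add_mul, one_mul]
      exact h2
    have h3 : ((n - 2).choose (r - 1) : ℝ) ≤ (G + 1) * (3200 * n) := by
      have h4 : ((n - 2).choose (r - 1) : ℝ) ≤ (((G + 1) * (3200 * (n - 2)) : ℕ) : ℝ) := by
        exact_mod_cast h1.le
      refine h4.trans ?_
      push_cast [Nat.cast_sub (show 2 ≤ n by omega)]
      apply mul_le_mul_of_nonneg_left _ (by positivity)
      linarith
    have h5 : 0.24 * (u * (n : ℝ) ^ 2) ≤ (G + 1) * (3200 * n) := by
      rw [← hKu]; exact hCR.trans h3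
    have h6 : 0.24 * (u * n) ≤ (G + 1) * 3200 := by
      have h7 : (0.24 * (u * n)) * n ≤ ((G + 1) * 3200) * (n : ℝ) := by
        calc (0.24 * (u * n)) * (n : ℝ) = 0.24 * (u * (n : ℝ) ^ 2) := by ring
          _ ≤ _ := h5
          _ = _ := by ring
      exact le_of_mul_le_mul_right h7 hn0
    rw [hs2]
    have h8 : 1000000000000 * 1 ≤ (n : ℝ) * u := mul_le_mul hnR hu1 (by norm_num) hn0.le
    linarith
  -- conclusion
  set O := ((indT σ ((univ : Finset (Fin n)).powersetCard r)).image (Om σ)).card with hO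
  set I := (indSets (JG (Fin n)) ((univ : Finset (Fin n)).powersetCard r)).card with hI
  set F := (indSets (JG (Fin n)) (((univ : Finset (Fin n)).powersetCard r).filter
    (fun X => σ • X = X))).card with hF
  set D := 2 ^ (2 * T) * ∑ j ∈ range (a + b + 1), M.choose j with hD
  have hFG : F * 2 ^ G ≤ 3200 * I :=
    (Nat.mul_le_mul_right _ (card_le_card (indSets_mono hfix))).trans hext
  have hfinal := final_leW (W := 2 ^ n / n ^ 6) (g := g) (G := G) (D := (D : ℝ)) (O := (O : ℝ)) (I := (I : ℝ))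
    (F := (F : ℝ)) (Sg := ((∑ j ∈ range g, K.choose j : ℕ) : ℝ)) hL1 hsL hu1 hun
    (Nat.cast_nonneg _) (Nat.cast_nonneg _) (Nat.cast_nonneg _) (Nat.cast_nonneg _) hdata hsum
    (by exact_mod_cast hOm) (by exact_mod_cast hFG) hg1 hGR
  have hfinal' : D * O * 2 ^ (2 ^ n / n ^ 6) ≤ I := by exact_mod_cast hfinal
  exact ⟨⟨by omega, by omega⟩, (Nat.mul_le_mul_right _ hcount).trans hfinal'⟩


/-- The trivial bound away from the centre. -/
theorem case_AW {n : ℕ} (hn : 4 ≤ n) (σ : Equiv.Perm (Fin n)) {r : ℕ}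
    (hK : n ^ 2 * n.choose r < n.choose (n / 2)) :
    (invBF σ r).card * 2 ^ (2 ^ n / n ^ 6) ≤
      (indSets (JG (Fin n)) ((univ : Finset (Fin n)).powersetCard (n / 2))).card := by
  have hne : (univ : Finset (Fin n)).Nonempty := ⟨⟨0, by omega⟩, mem_univ _⟩
  obtain ⟨B, hB, hBc⟩ := exists_indep_subfamily (univ : Finset (Fin n)) hne
    ((univ : Finset (Fin n)).powersetCard (n / 2)) (fun X _ => subset_univ _)
  rw [card_powersetCard, card_univ, Fintype.card_fin] at hBc
  set W := 2 ^ n / n ^ 6 with hW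
  have hW1 : W * n ^ 6 ≤ 2 ^ n := Nat.div_mul_le_self _ _
  have hW2 : n ^ 2 * W ≤ n.choose (n / 2) := by
    have h1 : (n ^ 2 * W) * n ^ 4 ≤ n.choose (n / 2) * n ^ 4 := by
      calc (n ^ 2 * W) * n ^ 4 = W * n ^ 6 := by ring
        _ ≤ 2 ^ n := hW1
        _ ≤ (n + 1) * n.choose (n / 2) := two_pow_le n
        _ ≤ n ^ 4 * n.choose (n / 2) := by
            refine Nat.mul_le_mul_right _ ?_
            calc n + 1 ≤ n ^ 2 := by nlinarith
              _ ≤ n ^ 4 := Nat.pow_le_pow_right (by omega) (by norm_num)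
        _ = _ := by ring
    exact Nat.le_of_mul_le_mul_right h1 (by positivity)
  have h1 : n.choose r + W ≤ B.card := by
    have h2 : n ^ 2 * (n.choose r + W) ≤ n ^ 2 * B.card := by
      calc n ^ 2 * (n.choose r + W) = n ^ 2 * n.choose r + n ^ 2 * W := by ring
        _ ≤ n.choose (n / 2) + n.choose (n / 2) := by omega
        _ = 2 * n.choose (n / 2) := by ring
        _ ≤ n * n.choose (n / 2) := Nat.mul_le_mul_right _ (by omega)
        _ ≤ n * (n * B.card) := Nat.mul_le_mul_left _ hBc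
        _ = n ^ 2 * B.card := by ring
    exact Nat.le_of_mul_le_mul_left h2 (by positivity)
  calc (invBF σ r).card * 2 ^ W ≤ 2 ^ (n.choose r) * 2 ^ W :=
        Nat.mul_le_mul_right _ (card_invBF_le_pow σ r)
    _ = 2 ^ (n.choose r + W) := by rw [pow_add]
    _ ≤ 2 ^ B.card := Nat.pow_le_pow_right (by norm_num) h1
    _ ≤ _ := card_indSets_ge (JG (Fin n)) hB

/-- The main bound. -/
theorem main_boundW : ∃ n₀ : ℕ, ∀ n : ℕ, n₀ ≤ n → 4 ≤ n ∧ ∀ σ : Equiv.Perm (Fin n), σ ≠ 1 → ∀ r : ℕ,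
    (n.choose (n / 2) ≤ n ^ 2 * n.choose r → (1 ≤ r ∧ r + 1 ≤ n) ∧
      (invBF σ r).card * 2 ^ (2 ^ n / n ^ 6) ≤
        (indSets (JG (Fin n)) ((univ : Finset (Fin n)).powersetCard r)).card) ∧
    (¬ n.choose (n / 2) ≤ n ^ 2 * n.choose r →
      (invBF σ r).card * 2 ^ (2 ^ n / n ^ 6) ≤
        (indSets (JG (Fin n)) ((univ : Finset (Fin n)).powersetCard (n / 2))).card) := by
  obtain ⟨m₀, hm₀⟩ := half_of_large
  have hm₀' : HalfBound m₀ := hm₀
  obtain ⟨n₁, hn₁⟩ := eventually_par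
  refine ⟨max n₁ (max (m₀ + 2) 4), fun n hn => ?_⟩
  have hn1 : n₁ ≤ n := le_trans (le_max_left _ _) hn
  have hn3 : m₀ + 2 ≤ n := le_trans (le_trans (le_max_left _ _) (le_max_right _ _)) hn
  have hn4 : 4 ≤ n := le_trans (le_trans (le_max_right _ _) (le_max_right _ _)) hn
  obtain ⟨hL1, hsL⟩ := hn₁ n hn1
  refine ⟨hn4, fun σ hσ r => ⟨fun hK => ?_, fun hK => ?_⟩⟩
  · have hr : r ≤ n := by
      by_contra hcon
      push Not at hcon
      rw [Nat.choose_eq_zero_of_lt hcon, mul_zero] at hK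
      have := Nat.choose_pos (Nat.div_le_self n 2)
      omega
    exact case_BW hm₀' hn3 hL1 hsL σ hσ hr hK
  · push Not at hK
    exact case_AW hn4 σ hK

end Pool.Agent.Lib.MP_ea4949_co.H23
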