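import Pool.Agent.Lib.MP_ea4949_co.H23.Defs
import Pool.Agent.Lib.MP_ea4949_co.H23.Bound

set_option autoImplicit false

namespace Pool.Agent.Lib.MP_ea4949_co.H23

open Finset Pool.Agent.Lib.MP_ea4949_co
open scoped Pointwise

variable {n : ℕ}

lemma image_inv_image' (σ : Equiv.Perm (Fin n)) (B : Set (Fin n)) :
    σ '' ((σ⁻¹ : Equiv.Perm (Fin n)) '' B) = B := image_inv_image σ B

lemma inv_image_image' (σ : Equiv.Perm (Fin n)) (B : Set (Fin n)) :
    (σ⁻¹ : Equiv.Perm (Fin n)) '' (σ '' B) = B := by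
  have := image_inv_image (σ⁻¹) B
  rwa [inv_inv] at this

lemma indep_iff_of_isBase_iff {M N : Matroid (Fin n)} {σ : Equiv.Perm (Fin n)}
    (h : ∀ B : Set (Fin n), M.IsBase B ↔ N.IsBase (σ '' B)) (I : Set (Fin n)) :
    M.Indep I ↔ N.Indep (σ '' I) := by
  rw [Matroid.indep_iff, Matroid.indep_iff]
  constructor
  · rintro ⟨B, hB, hIB⟩
    exact ⟨σ '' B, (h B).mp hB, Set.image_mono hIB⟩
  · rintro ⟨B, hB, hIB⟩
    refine ⟨(σ⁻¹ : Equiv.Perm (Fin n)) '' B, ?_, ?_⟩
    · rw [h, image_inv_image']; exact hB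
    · rw [← inv_image_image' σ I]
      exact Set.image_mono hIB

lemma isBase_iff_of_indep_iff {M N : Matroid (Fin n)} {σ : Equiv.Perm (Fin n)}
    (h : ∀ I : Set (Fin n), M.Indep I ↔ N.Indep (σ '' I)) (B : Set (Fin n)) :
    M.IsBase B ↔ N.IsBase (σ '' B) := by
  rw [Matroid.isBase_iff_maximal_indep, Matroid.isBase_iff_maximal_indep]
  constructor
  · rintro ⟨h1, h2⟩
    refine ⟨(h B).mp h1, fun J hJ hBJ => ?_⟩
    have h3 : M.Indep ((σ⁻¹ : Equiv.Perm (Fin n)) '' J) := by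
      rw [h, image_inv_image']; exact hJ
    have h4 : B ≤ (σ⁻¹ : Equiv.Perm (Fin n)) '' J := by
      rw [← inv_image_image' σ B]
      exact Set.image_mono hBJ
    have h5 := h2 h3 h4
    have h6 : σ '' ((σ⁻¹ : Equiv.Perm (Fin n)) '' J) ⊆ σ '' B := Set.image_mono h5
    rwa [image_inv_image'] at h6
  · rintro ⟨h1, h2⟩
    refine ⟨(h B).mpr h1, fun J hJ hBJ => ?_⟩
    have h5 := h2 ((h J).mp hJ) (Set.image_mono hBJ)
    have h6 : (σ⁻¹ : Equiv.Perm (Fin n)) '' (σ '' J) ⊆ (σ⁻¹ : Equiv.Perm (Fin n)) '' (σ '' B) :=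
      Set.image_mono h5
    rwa [inv_image_image', inv_image_image'] at h6

lemma iso_iff {M N : Mat n} : Iso M N ↔ Pool.Agent.Lib.MP_ea4949_co.Iso M N := by
  constructor
  · rintro ⟨σ, h⟩
    exact ⟨σ, isBase_iff_of_indep_iff h⟩
  · rintro ⟨σ, h⟩
    exact ⟨σ, indep_iff_of_isBase_iff h⟩

lemma iso_equivalence : Equivalence (Iso (n := n)) := by
  have h : (Iso (n := n)) = Pool.Agent.Lib.MP_ea4949_co.Iso (n := n) := by
    funext M N
    exact propext iso_iff
  rw [h]
  exact iso_equiv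

/-- A permutation that maps independent sets to independent sets is an automorphism. -/
lemma indep_iff_of_indep_imp {M : Matroid (Fin n)} {σ : Equiv.Perm (Fin n)}
    (h : ∀ I : Set (Fin n), M.Indep I → M.Indep (σ '' I)) (I : Set (Fin n)) :
    M.Indep I ↔ M.Indep (σ '' I) := by
  refine ⟨h I, fun hI => ?_⟩
  have hinj : Function.Injective (fun J : {J : Set (Fin n) // M.Indep J} =>
      (⟨σ '' J.1, h J.1 J.2⟩ : {J : Set (Fin n) // M.Indep J})) := by
    intro J K hJK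
    have h1 : σ '' J.1 = σ '' K.1 := congrArg Subtype.val hJK
    exact Subtype.ext (σ.injective.image_injective h1)
  have hsurj := Finite.injective_iff_surjective.mp hinj
  obtain ⟨⟨J, hJ⟩, hJI⟩ := hsurj ⟨σ '' I, hI⟩
  have h1 : σ '' J = σ '' I := congrArg Subtype.val hJI
  have h2 : J = I := σ.injective.image_injective h1
  rwa [← h2]

lemma asymmetric_iff {M : Mat n} : Asymmetric M ↔ Asym M := by
  constructor
  · intro h σ hσ
    exact h σ (fun I hI => (indep_iff_of_isBase_iff hσ I).mp hI)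
  · intro h σ hσ
    exact h σ (isBase_iff_of_indep_iff (indep_iff_of_indep_imp hσ))

/-! ### sparse paving matroids -/

lemma paving_of {M : Matroid (Fin n)} (hE : M.E = Set.univ) {r : ℕ} (hr : r + 1 ≤ n)
    (hbase : ∀ B : Set (Fin n), M.IsBase B → B.ncard = r)
    (hna : ∀ X Y : Finset (Fin n), X.card = r → Y.card = r → ¬ M.IsBase (X : Set (Fin n)) →
      ¬ M.IsBase (Y : Set (Fin n)) → ¬ (JG (Fin n)).Adj X Y) : Paving M := by
  classical
  intro C hC
  have hrank : M.eRank = (r : ℕ∞) := by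
    obtain ⟨B, hB⟩ := M.exists_isBase
    rw [← hB.encard_eq_eRank, ← hbase B hB, Set.ncard_def, ENat.coe_toNat]
    exact Set.encard_ne_top_iff.mpr B.toFinite
  rw [hrank]
  by_contra hlt
  push Not at hlt
  have hCf : ((C.toFinite.toFinset : Finset (Fin n)) : Set (Fin n)) = C := Set.Finite.coe_toFinset _
  set D : Finset (Fin n) := C.toFinite.toFinset with hD
  have hDr : D.card < r := by
    have h1 : C.encard = (D.card : ℕ∞) := by
      rw [← hCf, Set.encard_coe_eq_coe_finsetCard]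
    rw [h1] at hlt
    exact_mod_cast hlt
  have hnon : ∀ X : Finset (Fin n), D ⊆ X → ¬ M.IsBase (X : Set (Fin n)) := by
    intro X hDX hX
    refine hC.dep.not_indep (hX.indep.subset ?_)
    rw [← hCf]
    exact_mod_cast hDX
  obtain ⟨X, hDX, -, hXr⟩ := Finset.exists_subsuperset_card_eq (s := D) (t := univ) (n := r)
    (subset_univ _) hDr.le (by rw [card_univ, Fintype.card_fin]; omega)
  obtain ⟨x, hx⟩ : (X \ D).Nonempty := by
    rw [← card_pos, card_sdiff_of_subset hDX]; omega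
  obtain ⟨y, hy⟩ : (univ \ X).Nonempty := by
    rw [← card_pos, card_sdiff_of_subset (subset_univ _), card_univ, Fintype.card_fin]; omega
  rw [mem_sdiff] at hx hy
  have hadj : (JG (Fin n)).Adj X (insert y (X.erase x)) := by
    rw [JG_adj_iff_exchange]; exact ⟨x, hx.1, y, hy.2, rfl⟩
  refine hna X (insert y (X.erase x)) hXr ?_ (hnon X hDX) (hnon _ ?_) hadj
  · rw [← JG_adj_card hadj, hXr]
  · intro d hd
    refine mem_insert_of_mem (mem_erase.mpr ⟨?_, hDX hd⟩)
    rintro rfl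
    exact hx.2 hd

lemma sp_isBase_iff {r : ℕ} (hr1 : 1 ≤ r) (hr2 : r + 1 ≤ Fintype.card (Fin n))
    {Q : Finset (Finset (Fin n))}
    (hQ : Q ∈ indSets (JG (Fin n)) ((univ : Finset (Fin n)).powersetCard r))
    (B : Set (Fin n)) : (sp hr1 hr2 Q hQ).1.IsBase B ↔
      ∃ X : Finset (Fin n), (X : Set (Fin n)) = B ∧ X.card = r ∧ X ∉ Q := Iff.rfl

lemma sp_nonbase {r : ℕ} (hr1 : 1 ≤ r) (hr2 : r + 1 ≤ Fintype.card (Fin n))
    {Q : Finset (Finset (Fin n))}
    (hQ : Q ∈ indSets (JG (Fin n)) ((univ : Finset (Fin n)).powersetCard r))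
    {X : Finset (Fin n)} (hX : X.card = r) (h : ¬ (sp hr1 hr2 Q hQ).1.IsBase (X : Set (Fin n))) :
    X ∈ Q := by
  by_contra hcon
  exact h ((sp_isBase_iff hr1 hr2 hQ _).mpr ⟨X, rfl, hX, hcon⟩)

lemma sp_eRank {r : ℕ} (hr1 : 1 ≤ r) (hr2 : r + 1 ≤ Fintype.card (Fin n))
    {Q : Finset (Finset (Fin n))}
    (hQ : Q ∈ indSets (JG (Fin n)) ((univ : Finset (Fin n)).powersetCard r)) :
    (sp hr1 hr2 Q hQ).1.eRank = (r : ℕ∞) := by
  obtain ⟨B, hB⟩ := (sp hr1 hr2 Q hQ).1.exists_isBase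
  rw [← hB.encard_eq_eRank]
  obtain ⟨X, rfl, hX, -⟩ := (sp_isBase_iff hr1 hr2 hQ _).mp hB
  rw [Set.encard_coe_eq_coe_finsetCard, hX]

lemma sp_sparsePaving {r : ℕ} (hr1 : 1 ≤ r) (hr2 : r + 1 ≤ Fintype.card (Fin n))
    {Q : Finset (Finset (Fin n))}
    (hQ : Q ∈ indSets (JG (Fin n)) ((univ : Finset (Fin n)).powersetCard r)) :
    SparsePaving (sp hr1 hr2 Q hQ) := by
  classical
  have hQ' := hQ
  rw [mem_indSets] at hQ'
  have hr2' : r + 1 ≤ n := by rwa [Fintype.card_fin] at hr2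
  constructor
  · refine paving_of (sp hr1 hr2 Q hQ).2 (r := r) hr2' ?_ ?_
    · intro B hB
      obtain ⟨X, rfl, hX, -⟩ := (sp_isBase_iff hr1 hr2 hQ _).mp hB
      rw [Set.ncard_coe_finset, hX]
    · intro X Y hX hY hXb hYb
      exact hQ'.2 X (sp_nonbase hr1 hr2 hQ hX hXb) Y (sp_nonbase hr1 hr2 hQ hY hYb)
  · have hcompl : ∀ X : Finset (Fin n), ((univ \ X : Finset (Fin n)) : Set (Fin n)) =
        (sp hr1 hr2 Q hQ).1.E \ (X : Set (Fin n)) := by
      intro X
      rw [coe_sdiff, coe_univ, (sp hr1 hr2 Q hQ).2]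
    have hdual : ∀ X : Finset (Fin n), (sp hr1 hr2 Q hQ).1✶.IsBase (X : Set (Fin n)) ↔
        (sp hr1 hr2 Q hQ).1.IsBase ((univ \ X : Finset (Fin n)) : Set (Fin n)) := by
      intro X
      rw [Matroid.dual_isBase_iff (by rw [(sp hr1 hr2 Q hQ).2]; exact Set.subset_univ _), hcompl]
    have hcc : ∀ X : Finset (Fin n), X.card = n - r → (univ \ X).card = r := by
      intro X hX
      rw [card_sdiff_of_subset (subset_univ _), card_univ, Fintype.card_fin, hX]; omega
    refine paving_of (M := (sp hr1 hr2 Q hQ).1✶) ?_ (r := n - r) (by omega) ?_ ?_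
    · rw [Matroid.dual_ground]; exact (sp hr1 hr2 Q hQ).2
    · intro B hB
      have hBf : ((B.toFinite.toFinset : Finset (Fin n)) : Set (Fin n)) = B :=
        Set.Finite.coe_toFinset _
      rw [← hBf] at hB ⊢
      rw [hdual, sp_isBase_iff] at hB
      obtain ⟨X, hX, hXr, -⟩ := hB
      have hX' : X = univ \ B.toFinite.toFinset := by exact_mod_cast hX
      rw [Set.ncard_coe_finset]
      have h1 : (univ \ B.toFinite.toFinset : Finset (Fin n)).card = r := by rw [← hX', hXr]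
      rw [card_sdiff_of_subset (subset_univ _), card_univ, Fintype.card_fin] at h1
      have h2 : B.toFinite.toFinset.card ≤ n := by
        have := card_le_univ (B.toFinite.toFinset)
        rwa [Fintype.card_fin] at this
      omega
    · intro X Y hX hY hXb hYb hadj
      rw [hdual] at hXb hYb
      have h1 := sp_nonbase hr1 hr2 hQ (hcc X hX) hXb
      have h2 := sp_nonbase hr1 hr2 hQ (hcc Y hY) hYb
      exact hQ'.2 _ h1 _ h2 ((JG_adj_compl (subset_univ X) (subset_univ Y)).mpr hadj)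

end Pool.Agent.Lib.MP_ea4949_co.H23
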