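import Pool.Agent.Lib.MP_ea4949_co.H23.Basic

set_option autoImplicit false

namespace Pool.Agent.Lib.MP_ea4949_co.H23

open Finset Pool.Agent.Lib.MP_ea4949_co
open scoped Pointwise

variable {n : ℕ}

/-- Finitely many matroids. -/
noncomputable instance instFintypeMat (n : ℕ) : Fintype (Mat n) :=
  @Fintype.ofFinite (Mat n) (finite_Mt n)

/-- The members of a class as a finite set. -/
noncomputable def fs (P : Mat n → Prop) : Finset (Mat n) :=
  @Finset.filter _ P (Classical.decPred _) univ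

lemma mem_fs {P : Mat n → Prop} {M : Mat n} : M ∈ fs P ↔ P M := by
  classical
  unfold fs
  simp

lemma coe_fs (P : Mat n → Prop) : ((fs P : Finset (Mat n)) : Set (Mat n)) = {M : Mat n | P M} := by
  ext M
  rw [mem_coe, mem_fs]
  rfl

lemma labelled_eq (P : Mat n → Prop) : labelled P = (fs P).card := by
  unfold labelled
  rw [← coe_fs, Set.ncard_coe_finset]

open Classical in
lemma unlabelled_eq (P : Mat n → Prop) : unlabelled P = ((fs P).image isoClass).card := by
  unfold unlabelled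
  rw [← coe_fs, ← coe_image, Set.ncard_coe_finset]

lemma isoClass_eq_iff {M N : Mat n} : isoClass M = isoClass N ↔ Iso M N := by
  constructor
  · intro h
    have h1 : N ∈ isoClass N := iso_equivalence.refl N
    rw [← h] at h1
    exact h1
  · intro h
    ext K
    exact ⟨fun hK => iso_equivalence.trans (iso_equivalence.symm h) hK,
      fun hK => iso_equivalence.trans h hK⟩

lemma unlabelled_le_labelled (P : Mat n → Prop) : unlabelled P ≤ labelled P := by
  classical
  rw [unlabelled_eq, labelled_eq]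
  exact card_image_le

lemma eq_of_iso_same {K M N : Mat n} {σ : Equiv.Perm (Fin n)}
    (h : ∀ I : Set (Fin n), K.1.Indep I ↔ M.1.Indep (σ '' I))
    (h' : ∀ I : Set (Fin n), K.1.Indep I ↔ N.1.Indep (σ '' I)) : M = N := by
  refine Subtype.ext (Matroid.ext_indep (M.2.trans N.2.symm) (fun I _ => ?_))
  have h4 := h ((σ⁻¹ : Equiv.Perm (Fin n)) '' I)
  have h5 := h' ((σ⁻¹ : Equiv.Perm (Fin n)) '' I)
  rw [image_inv_image'] at h4 h5
  exact h4.symm.trans h5

/-- An isomorphism class has at most `n!` members. -/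
lemma labelled_le (P : Mat n → Prop) : labelled P ≤ n.factorial * unlabelled P := by
  classical
  rw [unlabelled_eq, labelled_eq]
  refine card_le_mul_card_image (fs P) n.factorial (fun c hc => ?_)
  rw [mem_image] at hc
  obtain ⟨K, hK, rfl⟩ := hc
  have h0 : n.factorial = (univ : Finset (Equiv.Perm (Fin n))).card := by
    rw [card_univ, Fintype.card_perm, Fintype.card_fin]
  rw [h0]
  have h1 : ∀ M : Mat n, M ∈ (fs P).filter (fun x => isoClass x = isoClass K) →
      ∃ σ : Equiv.Perm (Fin n), ∀ I : Set (Fin n), K.1.Indep I ↔ M.1.Indep (σ '' I) := by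
    intro M hM
    rw [mem_filter] at hM
    exact isoClass_eq_iff.mp hM.2.symm
  choose! σ hσ using h1
  refine card_le_card_of_injOn σ (fun M _ => mem_coe.mpr (mem_univ _)) ?_
  intro M hM N hN hMN
  have h2 := hσ M hM
  have h3 := hσ N hN
  rw [← hMN] at h3
  exact eq_of_iso_same h2 h3

/-- Relabelling. -/
def act (σ : Equiv.Perm (Fin n)) (M : Mat n) : Mat n :=
  ⟨M.1.mapEquiv σ, by rw [Matroid.mapEquiv_ground_eq, M.2, Set.image_univ, σ.range_eq_univ]⟩

lemma act_indep (σ : Equiv.Perm (Fin n)) (M : Mat n) (I : Set (Fin n)) :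
    M.1.Indep I ↔ (act σ M).1.Indep (σ '' I) := by
  unfold act
  rw [Matroid.mapEquiv_indep_iff]
  have : (σ.symm : Fin n → Fin n) '' (σ '' I) = I := by
    rw [← Set.image_comp]
    have : ((σ.symm : Fin n → Fin n) ∘ (σ : Fin n → Fin n)) = id := by
      funext x; simp
    rw [this, Set.image_id]
  rw [this]

lemma act_iso (σ : Equiv.Perm (Fin n)) (M : Mat n) : Iso M (act σ M) := ⟨σ, act_indep σ M⟩

lemma act_inj {M : Mat n} (hM : Asymmetric M) {σ τ : Equiv.Perm (Fin n)}
    (h : act σ M = act τ M) : σ = τ := by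
  have h1 : ∀ I : Set (Fin n), M.1.Indep I → M.1.Indep ((τ⁻¹ * σ : Equiv.Perm (Fin n)) '' I) := by
    intro I hI
    have h2 : (act σ M).1.Indep (σ '' I) := (act_indep σ M I).mp hI
    rw [h] at h2
    rw [act_indep τ M]
    have h3 : τ '' ((τ⁻¹ * σ : Equiv.Perm (Fin n)) '' I) = σ '' I := by
      rw [Equiv.Perm.coe_mul, Set.image_comp, image_inv_image']
    rw [h3]
    exact h2
  have h4 := hM _ h1
  have h5 : τ * (τ⁻¹ * σ) = τ * 1 := by rw [h4]
  rw [mul_inv_cancel_left, mul_one] at h5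
  exact h5

lemma asymmetric_of_iso {M N : Mat n} (h : Iso M N) (hM : Asymmetric M) : Asymmetric N := by
  obtain ⟨σ, hσ⟩ := h
  intro τ hτ
  have h1 : ∀ I : Set (Fin n), M.1.Indep I → M.1.Indep ((σ⁻¹ * τ * σ : Equiv.Perm (Fin n)) '' I) := by
    intro I hI
    rw [hσ]
    have h2 : σ '' ((σ⁻¹ * τ * σ : Equiv.Perm (Fin n)) '' I) = τ '' (σ '' I) := by
      rw [← Set.image_comp, ← Set.image_comp, ← Equiv.Perm.coe_mul, ← Equiv.Perm.coe_mul]
      congr 2
      group
    rw [h2]
    exact hτ _ ((hσ I).mp hI)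
  have h3 := hM _ h1
  have h4 : σ * (σ⁻¹ * τ * σ) * σ⁻¹ = σ * 1 * σ⁻¹ := by rw [h3]
  have h5 : σ * (σ⁻¹ * τ * σ) * σ⁻¹ = τ := by group
  rw [h5] at h4
  rw [h4]
  group

/-- The class of an asymmetric matroid has `n!` members. -/
lemma factorial_mul_le {P : Mat n → Prop} (hP : IsoClosed P) :
    n.factorial * unlabelled (fun M => P M ∧ Asymmetric M) ≤
      labelled (fun M => P M ∧ Asymmetric M) := by
  classical
  rw [unlabelled_eq, labelled_eq]
  refine mul_card_image_le_card _ n.factorial (fun c hc => ?_)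
  rw [mem_image] at hc
  obtain ⟨K, hK, rfl⟩ := hc
  rw [mem_fs] at hK
  have h0 : n.factorial = (univ : Finset (Equiv.Perm (Fin n))).card := by
    rw [card_univ, Fintype.card_perm, Fintype.card_fin]
  rw [h0]
  refine card_le_card_of_injOn (fun σ => act σ K) ?_ ?_
  · intro σ _
    rw [mem_coe, mem_filter, mem_fs]
    refine ⟨⟨hP _ _ (act_iso σ K) hK.1, asymmetric_of_iso (act_iso σ K) hK.2⟩, ?_⟩
    exact isoClass_eq_iff.mpr (iso_equivalence.symm (act_iso σ K))
  · intro σ _ τ _ h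
    exact act_inj hK.2 h

lemma unlabelled_split_le (P : Mat n → Prop) :
    unlabelled P ≤ unlabelled (fun M => P M ∧ Asymmetric M) +
      unlabelled (fun M => P M ∧ ¬ Asymmetric M) := by
  classical
  rw [unlabelled_eq, unlabelled_eq, unlabelled_eq]
  refine le_trans ?_ (card_union_le _ _)
  refine card_le_card ?_
  intro c hc
  rw [mem_image] at hc
  obtain ⟨K, hK, rfl⟩ := hc
  rw [mem_fs] at hK
  rw [mem_union, mem_image, mem_image]
  by_cases h : Asymmetric K
  · left; exact ⟨K, mem_fs.mpr ⟨hK, h⟩, rfl⟩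
  · right; exact ⟨K, mem_fs.mpr ⟨hK, h⟩, rfl⟩

/-- For an isomorphism closed class the two kinds of unlabelled members are disjoint. -/
lemma unlabelled_split {P : Mat n → Prop} :
    unlabelled P = unlabelled (fun M => P M ∧ Asymmetric M) +
      unlabelled (fun M => P M ∧ ¬ Asymmetric M) := by
  classical
  rw [unlabelled_eq, unlabelled_eq, unlabelled_eq, ← card_union_of_disjoint]
  · congr 1
    ext c
    rw [mem_union, mem_image, mem_image, mem_image]
    constructor
    · rintro ⟨K, hK, rfl⟩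
      rw [mem_fs] at hK
      by_cases h : Asymmetric K
      · left; exact ⟨K, mem_fs.mpr ⟨hK, h⟩, rfl⟩
      · right; exact ⟨K, mem_fs.mpr ⟨hK, h⟩, rfl⟩
    · rintro (⟨K, hK, rfl⟩ | ⟨K, hK, rfl⟩)
      · exact ⟨K, mem_fs.mpr (mem_fs.mp hK).1, rfl⟩
      · exact ⟨K, mem_fs.mpr (mem_fs.mp hK).1, rfl⟩
  · rw [disjoint_left]
    intro c h1 h2
    rw [mem_image] at h1 h2
    obtain ⟨K, hK, rfl⟩ := h1
    obtain ⟨L, hL, hLK⟩ := h2
    exact (mem_fs.mp hL).2 (asymmetric_of_iso (iso_equivalence.symm (isoClass_eq_iff.mp hLK))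
      (mem_fs.mp hK).2)

lemma labelled_mono {P R : Mat n → Prop} (h : ∀ M, P M → R M) : labelled P ≤ labelled R := by
  rw [labelled_eq, labelled_eq]
  exact card_le_card (fun M hM => mem_fs.mpr (h M (mem_fs.mp hM)))

lemma unlabelled_mono {P R : Mat n → Prop} (h : ∀ M, P M → R M) : unlabelled P ≤ unlabelled R := by
  classical
  rw [unlabelled_eq, unlabelled_eq]
  exact card_le_card (image_subset_image (fun M hM => mem_fs.mpr (h M (mem_fs.mp hM))))

/-- The labelled members with a nontrivial automorphism. -/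
lemma card_sym_le (P : Mat n → Prop) (w m : ℕ)
    (h : ∀ σ : Equiv.Perm (Fin n), σ ≠ 1 → ∀ r : ℕ, (∃ M : Mat n, P M ∧ rk M.1 = r) →
      (invBF σ r).card * w ≤ m) :
    labelled (fun M => P M ∧ ¬ Asymmetric M) * w ≤ n.factorial * ((n + 1) * m) := by
  classical
  set R : Finset ℕ := (range (n + 1)).filter (fun r => ∃ M : Mat n, P M ∧ rk M.1 = r) with hR
  set S : Finset (Equiv.Perm (Fin n)) := univ.filter (fun σ => σ ≠ 1) with hS
  have h1 : ∀ M : Mat n, M ∈ fs (fun M => P M ∧ ¬ Asymmetric M) →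
      ∃ σ : Equiv.Perm (Fin n), σ ≠ 1 ∧ ∀ B : Set (Fin n), M.1.IsBase B ↔ M.1.IsBase (σ '' B) := by
    intro M hM
    rw [mem_fs, asymmetric_iff] at hM
    obtain ⟨-, hM⟩ := hM
    unfold Asym at hM
    push Not at hM
    obtain ⟨σ, hσ, hσ1⟩ := hM
    exact ⟨σ, hσ1, hσ⟩
  choose! σ hσ using h1
  have h2 : (fs (fun M => P M ∧ ¬ Asymmetric M)).card ≤
      ((S ×ˢ R).sigma (fun p => invBF p.1 p.2)).card := by
    refine card_le_card_of_injOn (fun M => ⟨(σ M, rk M.1), fam M.1⟩) ?_ ?_
    · intro M hM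
      rw [mem_coe] at hM
      have hP := (mem_fs.mp hM).1
      rw [mem_coe, mem_sigma, mem_product, hS, hR, mem_filter, mem_filter, mem_range]
      refine ⟨⟨⟨mem_univ _, (hσ M hM).1⟩, ?_, M, hP, rfl⟩, ?_⟩
      · have := rk_le M.1
        rw [Fintype.card_fin] at this
        exact Nat.lt_succ_of_le this
      · rw [mem_invBF]
        refine ⟨fam_BF M.2, fun X => ?_⟩
        rw [mem_fam, mem_fam, coe_smul_finset]
        exact ((hσ M hM).2 (X : Set (Fin n))).symm
    · intro M _ N _ hMN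
      have h3 : fam M.1 = fam N.1 :=
        congrArg (fun x : (Σ _ : Equiv.Perm (Fin n) × ℕ, Finset (Finset (Fin n))) => x.2) hMN
      exact Subtype.ext (fam_inj M.2 N.2 h3)
  rw [labelled_eq]
  rw [card_sigma] at h2
  calc (fs (fun M => P M ∧ ¬ Asymmetric M)).card * w ≤
      (∑ p ∈ S ×ˢ R, (invBF p.1 p.2).card) * w := Nat.mul_le_mul_right _ h2
    _ = ∑ p ∈ S ×ˢ R, (invBF p.1 p.2).card * w := sum_mul _ _ _
    _ ≤ (S ×ˢ R).card • m := by
        refine sum_le_card_nsmul _ _ _ (fun p hp => ?_)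
        rw [mem_product, hS, hR, mem_filter, mem_filter] at hp
        exact h p.1 hp.1.2 p.2 hp.2.2
    _ ≤ n.factorial * ((n + 1) * m) := by
        rw [smul_eq_mul, card_product, mul_assoc]
        refine Nat.mul_le_mul ?_ (Nat.mul_le_mul_right _ ?_)
        · refine (card_filter_le _ _).trans ?_
          rw [card_univ, Fintype.card_perm, Fintype.card_fin]
        · refine (card_filter_le _ _).trans ?_
          rw [card_range]

lemma rk_of_eRank {M : Matroid (Fin n)} {r : ℕ} (h : M.eRank = (r : ℕ∞)) : rk M = r := by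
  unfold rk
  have h1 := M.exists_isBase.choose_spec.encard_eq_eRank
  rw [h] at h1
  rw [Set.ncard_def, h1, ENat.toNat_natCast]

/-- The sparse paving matroids of rank `r` inject. -/
lemma card_sp_le {r : ℕ} (hr1 : 1 ≤ r) (hr2 : r + 1 ≤ n) (P : Mat n → Prop)
    (hP : ∀ M : Mat n, SparsePaving M → M.1.eRank = (r : ℕ∞) → P M) :
    (indSets (JG (Fin n)) ((univ : Finset (Fin n)).powersetCard r)).card ≤ labelled P := by
  classical
  have hr2' : r + 1 ≤ Fintype.card (Fin n) := by rwa [Fintype.card_fin]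
  rw [labelled_eq, ← card_attach]
  refine card_le_card_of_injOn (fun Q => sp hr1 hr2' Q.1 Q.2) ?_ ?_
  · intro Q _
    rw [mem_coe, mem_fs]
    exact hP _ (sp_sparsePaving hr1 hr2' Q.2) (sp_eRank hr1 hr2' Q.2)
  · intro Q _ Q' _ h
    exact Subtype.ext (sp_inj hr1 hr2' Q.2 Q'.2 h)

end Pool.Agent.Lib.MP_ea4949_co.H23
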