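import Mathlib

set_option autoImplicit false

namespace Pool.Agent.Lib.MP_ea4949_co.H23

/-- The matroids on the labelled ground set with `n` elements: all of `Fin n`. -/
abbrev Mat (n : ℕ) : Type := {M : Matroid (Fin n) // M.E = Set.univ}

/-- `M` and `N` are isomorphic: some permutation maps the independent sets of `M` exactly to the
independent sets of `N`. -/
def Iso {n : ℕ} (M N : Mat n) : Prop :=
  ∃ σ : Equiv.Perm (Fin n), ∀ I : Set (Fin n), M.1.Indep I ↔ N.1.Indep (σ '' I)

/-- The only automorphism of `M`, a permutation that maps independent sets to independent sets, is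
the identity. -/
def Asymmetric {n : ℕ} (M : Mat n) : Prop :=
  ∀ σ : Equiv.Perm (Fin n), (∀ I : Set (Fin n), M.1.Indep I → M.1.Indep (σ '' I)) → σ = 1

/-- The class `P` of matroids with `n` labelled elements is closed under isomorphism. -/
def IsoClosed {n : ℕ} (P : Mat n → Prop) : Prop :=
  ∀ M N : Mat n, Iso M N → P M → P N

/-- The isomorphism class of `M`: an unlabelled matroid. -/
def isoClass {n : ℕ} (M : Mat n) : Set (Mat n) :=
  {N : Mat n | Iso M N}

/-- The number of labelled matroids in the class `P`. -/
noncomputable def labelled {n : ℕ} (P : Mat n → Prop) : ℕ :=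
  Set.ncard {M : Mat n | P M}

/-- The number of unlabelled matroids in the class `P`: the number of isomorphism classes of
members of `P`. -/
noncomputable def unlabelled {n : ℕ} (P : Mat n → Prop) : ℕ :=
  Set.ncard (isoClass '' {M : Mat n | P M})

/-- A matroid is paving if no circuit has fewer elements than the rank. -/
def Paving {n : ℕ} (M : Matroid (Fin n)) : Prop :=
  ∀ C : Set (Fin n), M.IsCircuit C → M.eRank ≤ C.encard

/-- A matroid is sparse paving if it and its dual are paving. -/
def SparsePaving {n : ℕ} (M : Mat n) : Prop :=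
  Paving M.1 ∧ Paving M.1✶

/-- In the class `P` of matroids with `n` elements the matroids with an automorphism other than
the identity are the proportion at most `2 ^ (- 2 ^ n / n ^ 7)`, counted unlabelled and counted
labelled, and the number of unlabelled matroids in `P`, multiplied by `n!`, is the number of
labelled matroids in `P` up to a factor between `1` and `1 + 2 ^ (- 2 ^ n / n ^ 7)`. -/
def AlmostAllAsymmetric {n : ℕ} (P : Mat n → Prop) : Prop :=
  (unlabelled (fun M => P M ∧ ¬ Asymmetric M) : ℝ) ≤
      (2 : ℝ) ^ (-((2 : ℝ) ^ n / (n : ℝ) ^ 7)) * unlabelled P ∧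
  (labelled (fun M => P M ∧ ¬ Asymmetric M) : ℝ) ≤
      (2 : ℝ) ^ (-((2 : ℝ) ^ n / (n : ℝ) ^ 7)) * labelled P ∧
  (labelled P : ℝ) ≤ (n.factorial : ℝ) * unlabelled P ∧
  (n.factorial : ℝ) * unlabelled P ≤
      (1 + (2 : ℝ) ^ (-((2 : ℝ) ^ n / (n : ℝ) ^ 7))) * labelled P

end Pool.Agent.Lib.MP_ea4949_co.H23
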