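import Pool.Agent.Lib.MP_ea4949_co.H23.Classes

set_option autoImplicit false

namespace Pool.Agent.Lib.MP_ea4949_co.H23

open Finset Pool.Agent.Lib.MP_ea4949_co
open scoped Pointwise

/-- The error term. -/
noncomputable def err (n : ℕ) : ℝ := (2 : ℝ) ^ (-((2 : ℝ) ^ n / (n : ℝ) ^ 7))

lemma err_pos (n : ℕ) : 0 < err n := by unfold err; positivity

lemma exists_pow_le : ∃ n₂ : ℕ, ∀ n : ℕ, n₂ ≤ n → n ^ 11 ≤ 2 ^ n := by
  have h1 : Filter.Tendsto (fun n : ℕ => (n : ℝ) ^ 11 / (2 : ℝ) ^ n) Filter.atTop (nhds 0) :=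
    tendsto_pow_const_div_const_pow_of_one_lt 11 (by norm_num)
  have h2 := h1.eventually_le_const (show (0 : ℝ) < 1 by norm_num)
  obtain ⟨n₂, hn₂⟩ := Filter.eventually_atTop.mp h2
  refine ⟨n₂, fun n hn => ?_⟩
  have h3 := hn₂ n hn
  rw [div_le_one (by positivity)] at h3
  exact_mod_cast h3

theorem numeric : ∃ n₁ : ℕ, ∀ n : ℕ, n₁ ≤ n →
    ((n.factorial : ℝ) * (n + 1) * n.factorial ≤ 2 ^ (2 ^ n / n ^ 6) * err n) ∧
    err n ≤ (1 / 2 : ℝ) ^ n := by
  obtain ⟨n₂, hn₂⟩ := exists_pow_le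
  refine ⟨max n₂ 4, fun n hn => ?_⟩
  have hn2 : n₂ ≤ n := le_trans (le_max_left _ _) hn
  have hn4 : 4 ≤ n := le_trans (le_max_right _ _) hn
  have h11 := hn₂ n hn2
  have hnR : (4 : ℝ) ≤ n := by exact_mod_cast hn4
  have hn0 : (0 : ℝ) < n := by linarith
  have h11R : (n : ℝ) ^ 11 ≤ 2 ^ n := by exact_mod_cast h11
  -- the quotient by `n ^ 7`
  set t : ℝ := (2 : ℝ) ^ n / (n : ℝ) ^ 7 with ht
  have ht4 : (n : ℝ) ^ 4 ≤ t := by
    rw [ht, le_div_iff₀ (by positivity), ← pow_add]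
    exact h11R
  have ht6 : (2 : ℝ) ^ n / (n : ℝ) ^ 6 = n * t := by
    rw [ht]
    field_simp
  constructor
  · have h1 : (n.factorial : ℝ) ≤ 2 ^ (n ^ 2) := by
      have : n.factorial ≤ 2 ^ (n ^ 2) := by
        calc n.factorial ≤ n ^ n := Nat.factorial_le_pow n
          _ ≤ (2 ^ n) ^ n := Nat.pow_le_pow_left Nat.lt_two_pow_self.le n
          _ = 2 ^ (n ^ 2) := by rw [← pow_mul, sq]
      exact_mod_cast this
    have h2 : (n : ℝ) + 1 ≤ 2 ^ n := by
      have : n + 1 ≤ 2 ^ n := Nat.lt_two_pow_self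
      exact_mod_cast this
    have h3 : (n.factorial : ℝ) * (n + 1) * n.factorial ≤ (2 : ℝ) ^ (2 * n ^ 2 + n) := by
      calc (n.factorial : ℝ) * (n + 1) * n.factorial ≤ 2 ^ (n ^ 2) * 2 ^ n * 2 ^ (n ^ 2) := by
            gcongr
        _ = (2 : ℝ) ^ (2 * n ^ 2 + n) := by rw [← pow_add, ← pow_add]; congr 1; ring
    refine h3.trans ?_
    unfold err
    rw [← Real.rpow_natCast, ← Real.rpow_natCast, ← Real.rpow_add (by norm_num)]
    apply Real.rpow_le_rpow_of_exponent_le (by norm_num)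
    rw [← ht]
    have h4 : (2 : ℝ) ^ n / (n : ℝ) ^ 6 < ((2 ^ n / n ^ 6 : ℕ) : ℝ) + 1 := by
      rw [div_lt_iff₀ (by positivity)]
      have h5 : 2 ^ n < (2 ^ n / n ^ 6 + 1) * n ^ 6 := by
        have h6 := Nat.lt_div_mul_add (a := 2 ^ n) (b := n ^ 6) (by positivity)
        rw [add_mul, one_mul]
        exact h6
      exact_mod_cast h5
    rw [ht6] at h4
    push_cast
    have h7 : 2 * (n : ℝ) ^ 2 + n + 1 ≤ (n - 1) * t := by
      have h8 : 2 * (n : ℝ) ^ 2 + n + 1 ≤ (n : ℝ) ^ 4 := by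
        have h9 : (16 : ℝ) ≤ (n : ℝ) ^ 2 := by nlinarith
        have h10 : (16 : ℝ) * (n : ℝ) ^ 2 ≤ (n : ℝ) ^ 4 := by
          have : (n : ℝ) ^ 4 = (n : ℝ) ^ 2 * (n : ℝ) ^ 2 := by ring
          rw [this]
          exact mul_le_mul_of_nonneg_right h9 (by positivity)
        nlinarith
      calc 2 * (n : ℝ) ^ 2 + n + 1 ≤ (n : ℝ) ^ 4 := h8
        _ ≤ t := ht4
        _ = 1 * t := (one_mul t).symm
        _ ≤ (n - 1) * t := by
          apply mul_le_mul_of_nonneg_right _ (le_trans (by positivity) ht4)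
          linarith
    linarith
  · unfold err
    rw [← ht, one_div, inv_pow, Real.rpow_neg (by norm_num), ← Real.rpow_natCast]
    apply inv_anti₀ (by positivity)
    apply Real.rpow_le_rpow_of_exponent_le (by norm_num)
    calc (n : ℝ) = (n : ℝ) ^ 1 := (pow_one _).symm
      _ ≤ (n : ℝ) ^ 4 := pow_le_pow_right₀ (by linarith) (by norm_num)
      _ ≤ t := ht4

variable {n : ℕ}

lemma almost_of {P : Mat n → Prop} (hP : IsoClosed P)
    (hnum : (n.factorial : ℝ) * (n + 1) * n.factorial ≤ 2 ^ (2 ^ n / n ^ 6) * err n)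
    (h : ∀ σ : Equiv.Perm (Fin n), σ ≠ 1 → ∀ r : ℕ, (∃ M : Mat n, P M ∧ rk M.1 = r) →
      (invBF σ r).card * 2 ^ (2 ^ n / n ^ 6) ≤ labelled P) : AlmostAllAsymmetric P := by
  have h0 := card_sym_le P (2 ^ (2 ^ n / n ^ 6)) (labelled P) h
  have hU := unlabelled_le_labelled (fun M => P M ∧ ¬ Asymmetric M)
  have hL := labelled_le P
  have hS := unlabelled_split_le P
  have hF := factorial_mul_le hP
  have hM := labelled_mono (n := n) (P := fun M => P M ∧ Asymmetric M) (R := P) (fun M h => h.1)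
  set labN := labelled (fun M => P M ∧ ¬ Asymmetric M)
  set unlN := unlabelled (fun M => P M ∧ ¬ Asymmetric M)
  set labA := labelled (fun M => P M ∧ Asymmetric M)
  set unlA := unlabelled (fun M => P M ∧ Asymmetric M)
  have h0R : (labN : ℝ) * 2 ^ (2 ^ n / n ^ 6) ≤ n.factorial * ((n + 1) * labelled P) := by
    exact_mod_cast h0
  have hUR : (unlN : ℝ) ≤ labN := by exact_mod_cast hU
  have hLR : (labelled P : ℝ) ≤ n.factorial * unlabelled P := by exact_mod_cast hL
  have hSR : (unlabelled P : ℝ) ≤ unlA + unlN := by exact_mod_cast hS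
  have hFR : (n.factorial : ℝ) * unlA ≤ labA := by exact_mod_cast hF
  have hMR : (labA : ℝ) ≤ labelled P := by exact_mod_cast hM
  have hfac : (1 : ℝ) ≤ n.factorial := by exact_mod_cast Nat.factorial_pos n
  have hp : (0 : ℝ) < 2 ^ (2 ^ n / n ^ 6) := by positivity
  have hlab0 : (0 : ℝ) ≤ labelled P := Nat.cast_nonneg _
  have hunl0 : (0 : ℝ) ≤ unlabelled P := Nat.cast_nonneg _
  have hlabN0 : (0 : ℝ) ≤ labN := Nat.cast_nonneg _
  have e0 : (n.factorial : ℝ) * labN ≤ err n * labelled P := by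
    have h1 : ((n.factorial : ℝ) * labN) * 2 ^ (2 ^ n / n ^ 6) ≤
        (err n * labelled P) * 2 ^ (2 ^ n / n ^ 6) := by
      calc ((n.factorial : ℝ) * labN) * 2 ^ (2 ^ n / n ^ 6) =
          (n.factorial : ℝ) * ((labN : ℝ) * 2 ^ (2 ^ n / n ^ 6)) := by ring
        _ ≤ (n.factorial : ℝ) * (n.factorial * ((n + 1) * labelled P)) :=
            mul_le_mul_of_nonneg_left h0R (by linarith)
        _ = ((n.factorial : ℝ) * (n + 1) * n.factorial) * labelled P := by ring
        _ ≤ (2 ^ (2 ^ n / n ^ 6) * err n) * labelled P := mul_le_mul_of_nonneg_right hnum hlab0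
        _ = _ := by ring
    exact le_of_mul_le_mul_right h1 hp
  have e1 : (unlN : ℝ) ≤ err n * unlabelled P := by
    have h1 : (unlN : ℝ) * 2 ^ (2 ^ n / n ^ 6) ≤ (err n * unlabelled P) * 2 ^ (2 ^ n / n ^ 6) := by
      calc (unlN : ℝ) * 2 ^ (2 ^ n / n ^ 6) ≤ labN * 2 ^ (2 ^ n / n ^ 6) :=
            mul_le_mul_of_nonneg_right hUR hp.le
        _ ≤ n.factorial * ((n + 1) * labelled P) := h0R
        _ ≤ n.factorial * ((n + 1) * (n.factorial * unlabelled P)) := by gcongr
        _ = ((n.factorial : ℝ) * (n + 1) * n.factorial) * unlabelled P := by ring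
        _ ≤ (2 ^ (2 ^ n / n ^ 6) * err n) * unlabelled P := mul_le_mul_of_nonneg_right hnum hunl0
        _ = _ := by ring
    exact le_of_mul_le_mul_right h1 hp
  refine ⟨e1, ?_, hLR, ?_⟩
  · refine le_trans ?_ e0
    calc (labN : ℝ) = 1 * labN := (one_mul _).symm
      _ ≤ n.factorial * labN := mul_le_mul_of_nonneg_right hfac hlabN0
  · have h2 : (n.factorial : ℝ) * unlabelled P ≤ n.factorial * unlA + n.factorial * unlN := by
      rw [← mul_add]
      exact mul_le_mul_of_nonneg_left hSR (by linarith)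
    have h3 : (n.factorial : ℝ) * unlN ≤ n.factorial * labN :=
      mul_le_mul_of_nonneg_left hUR (by linarith)
    have h4 : (1 + (2 : ℝ) ^ (-((2 : ℝ) ^ n / (n : ℝ) ^ 7))) * labelled P =
        labelled P + err n * labelled P := by
      unfold err; ring
    rw [h4]
    linarith

/-- All ranks, and one central rank. -/
theorem classes : ∃ n₀ : ℕ, ∀ n : ℕ, n₀ ≤ n → (4 ≤ n ∧ err n ≤ (1 / 2 : ℝ) ^ n) ∧
    (∀ P : Mat n → Prop, IsoClosed P → (∀ M : Mat n, SparsePaving M → P M) →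
      AlmostAllAsymmetric P) ∧
    (∀ r : ℕ, n.choose (n / 2) ≤ n ^ 2 * n.choose r → ∀ P : Mat n → Prop, IsoClosed P →
      (∀ M : Mat n, P M → M.1.eRank = (r : ℕ∞)) →
      (∀ M : Mat n, SparsePaving M → M.1.eRank = (r : ℕ∞) → P M) → AlmostAllAsymmetric P) := by
  obtain ⟨n₁, hn₁⟩ := numeric
  obtain ⟨n₂, hn₂⟩ := main_boundW
  refine ⟨max n₁ n₂, fun n hn => ?_⟩
  obtain ⟨hnum, herr⟩ := hn₁ n (le_trans (le_max_left _ _) hn)
  obtain ⟨hn4, hb⟩ := hn₂ n (le_trans (le_max_right _ _) hn)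
  refine ⟨⟨hn4, herr⟩, fun P hP hPS => ?_, fun r hr P hP hPr hPS => ?_⟩
  · refine almost_of hP hnum (fun σ hσ r _ => ?_)
    by_cases hc : n.choose (n / 2) ≤ n ^ 2 * n.choose r
    · obtain ⟨⟨hr1, hr2⟩, h⟩ := (hb σ hσ r).1 hc
      exact h.trans (card_sp_le hr1 hr2 P (fun M hM _ => hPS M hM))
    · exact ((hb σ hσ r).2 hc).trans
        (card_sp_le (by omega) (by omega) P (fun M hM _ => hPS M hM))
  · refine almost_of hP hnum (fun σ hσ r' hr' => ?_)
    obtain ⟨M, hM, hMr⟩ := hr'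
    have h1 : r' = r := by rw [← hMr]; exact rk_of_eRank (hPr M hM)
    subst h1
    obtain ⟨⟨hr1, hr2⟩, h⟩ := (hb σ hσ r').1 hr
    exact h.trans (card_sp_le hr1 hr2 P hPS)

lemma isoClosed_true : IsoClosed (fun _ : Mat n => True) := fun _ _ _ _ => trivial

lemma unlabelled_congr {P R : Mat n → Prop} (h : ∀ M, P M ↔ R M) : unlabelled P = unlabelled R := by
  have : P = R := funext fun M => propext (h M)
  rw [this]

lemma labelled_congr {P R : Mat n → Prop} (h : ∀ M, P M ↔ R M) : labelled P = labelled R := by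
  have : P = R := funext fun M => propext (h M)
  rw [this]

/-- The free matroid. -/
noncomputable def freeM (n : ℕ) : Mat n := ⟨Matroid.freeOn Set.univ, Matroid.freeOn_ground⟩

lemma not_asymmetric_free (hn : 2 ≤ n) : ¬ Asymmetric (freeM n) := by
  intro h
  have h1 := h (Equiv.swap ⟨0, by omega⟩ ⟨1, by omega⟩) (fun I _ => by
    change (Matroid.freeOn Set.univ).Indep _
    rw [Matroid.freeOn_indep_iff]
    exact Set.subset_univ _)
  have h2 := congrArg (fun σ : Equiv.Perm (Fin n) => σ ⟨0, by omega⟩) h1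
  simp at h2

lemma one_le_unlabelled {P : Mat n → Prop} {M : Mat n} (hM : P M) : 1 ≤ unlabelled P := by
  classical
  rw [unlabelled_eq]
  exact card_pos.mpr ⟨isoClass M, mem_image.mpr ⟨M, mem_fs.mpr hM, rfl⟩⟩

lemma one_le_labelled {P : Mat n → Prop} {M : Mat n} (hM : P M) : 1 ≤ labelled P := by
  rw [labelled_eq]
  exact card_pos.mpr ⟨M, mem_fs.mpr hM⟩

lemma labelled_le_two_pow (P : Mat n → Prop) : labelled P ≤ 2 ^ (2 ^ n) := by
  classical
  rw [labelled_eq]
  have h0 : 2 ^ (2 ^ n) = (univ : Finset (Finset (Finset (Fin n)))).card := by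
    rw [card_univ, Fintype.card_finset, Fintype.card_finset, Fintype.card_fin]
  rw [h0]
  refine card_le_card_of_injOn (fun M => fam M.1) (fun M _ => mem_coe.mpr (mem_univ _)) ?_
  intro M _ N _ h
  exact Subtype.ext (fam_inj M.2 N.2 h)

lemma lower_aux {a b : ℕ} (ha : 1 ≤ a) (hb : b ≤ 2 ^ (2 ^ n)) :
    (2 : ℝ) ^ (-(2 : ℝ) ^ n) * b ≤ a := by
  have h1 : (b : ℝ) ≤ 2 ^ (2 ^ n) := by exact_mod_cast hb
  have h2 : (2 : ℝ) ^ (-(2 : ℝ) ^ n) * (2 : ℝ) ^ (2 ^ n : ℕ) = 1 := by
    rw [← Real.rpow_natCast (2 : ℝ) (2 ^ n), ← Real.rpow_add (by norm_num)]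
    push_cast
    rw [neg_add_cancel, Real.rpow_zero]
  calc (2 : ℝ) ^ (-(2 : ℝ) ^ n) * b ≤ (2 : ℝ) ^ (-(2 : ℝ) ^ n) * (2 : ℝ) ^ (2 ^ n : ℕ) :=
        mul_le_mul_of_nonneg_left h1 (by positivity)
    _ = 1 := h2
    _ ≤ a := by exact_mod_cast ha

theorem lower (hn : 2 ≤ n) :
    (2 : ℝ) ^ (-(2 : ℝ) ^ n) * unlabelled (fun _ : Mat n => True) ≤
      unlabelled (fun M : Mat n => ¬ Asymmetric M) ∧
    (2 : ℝ) ^ (-(2 : ℝ) ^ n) * labelled (fun _ : Mat n => True) ≤
      labelled (fun M : Mat n => ¬ Asymmetric M) :=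
  ⟨lower_aux (one_le_unlabelled (M := freeM n) (not_asymmetric_free hn))
      ((unlabelled_le_labelled _).trans (labelled_le_two_pow _)),
    lower_aux (one_le_labelled (M := freeM n) (not_asymmetric_free hn)) (labelled_le_two_pow _)⟩

/-- Complementary classes. -/
lemma unlabelled_compl {P : Mat n → Prop} (hP : IsoClosed P) :
    unlabelled P + unlabelled (fun M => ¬ P M) ≤ unlabelled (fun _ : Mat n => True) := by
  classical
  rw [unlabelled_eq, unlabelled_eq, unlabelled_eq, ← card_union_of_disjoint]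
  · refine card_le_card (fun c hc => ?_)
    rw [mem_union, mem_image, mem_image] at hc
    rw [mem_image]
    rcases hc with ⟨K, _, rfl⟩ | ⟨K, _, rfl⟩
    · exact ⟨K, mem_fs.mpr trivial, rfl⟩
    · exact ⟨K, mem_fs.mpr trivial, rfl⟩
  · rw [disjoint_left]
    intro c h1 h2
    rw [mem_image] at h1 h2
    obtain ⟨K, hK, rfl⟩ := h1
    obtain ⟨L, hL, hLK⟩ := h2
    exact (mem_fs.mp hL) (hP _ _ (iso_equivalence.symm (isoClass_eq_iff.mp hLK)) (mem_fs.mp hK))

lemma labelled_compl (P : Mat n → Prop) :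
    labelled (fun _ : Mat n => True) ≤ labelled P + labelled (fun M => ¬ P M) := by
  classical
  rw [labelled_eq, labelled_eq, labelled_eq]
  refine le_trans (card_le_card ?_) (card_union_le _ _)
  intro M _
  rw [mem_union, mem_fs, mem_fs]
  exact em _

/-- The proportions among unlabelled and labelled matroids. -/
theorem transfer_of {P : Mat n → Prop} (hP : IsoClosed P)
    (hall : AlmostAllAsymmetric (fun _ : Mat n => True)) :
    |(unlabelled P : ℝ) / unlabelled (fun _ : Mat n => True) -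
      (labelled P : ℝ) / labelled (fun _ : Mat n => True)| ≤ err n := by
  obtain ⟨-, -, hBA, hAB⟩ := hall
  have h1 := labelled_le P
  have h2 := labelled_le (fun M => ¬ P M)
  have h3 := unlabelled_compl hP
  have h4 := labelled_compl P
  have hf1 : 1 ≤ unlabelled (fun _ : Mat n => True) := one_le_unlabelled (M := freeM n) trivial
  have hl1 : 1 ≤ labelled (fun _ : Mat n => True) := one_le_labelled (M := freeM n) trivial
  have h5 := labelled_mono (n := n) (P := P) (R := fun _ => True) (fun _ _ => trivial)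
  set f := unlabelled (fun _ : Mat n => True)
  set l := labelled (fun _ : Mat n => True)
  have hfac : (1 : ℝ) ≤ n.factorial := by exact_mod_cast Nat.factorial_pos n
  have h1R : (labelled P : ℝ) ≤ n.factorial * unlabelled P := by exact_mod_cast h1
  have h2R : (labelled (fun M => ¬ P M) : ℝ) ≤ n.factorial * unlabelled (fun M => ¬ P M) := by
    exact_mod_cast h2
  have h3R : (unlabelled P : ℝ) + unlabelled (fun M => ¬ P M) ≤ f := by exact_mod_cast h3
  have h4R : (l : ℝ) ≤ labelled P + labelled (fun M => ¬ P M) := by exact_mod_cast h4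
  have h5R : (labelled P : ℝ) ≤ l := by exact_mod_cast h5
  have hf : (1 : ℝ) ≤ f := by exact_mod_cast hf1
  have hl : (1 : ℝ) ≤ l := by exact_mod_cast hl1
  have hAB' : (n.factorial : ℝ) * f ≤ l + err n * l := by
    have : (1 + (2 : ℝ) ^ (-((2 : ℝ) ^ n / (n : ℝ) ^ 7))) * (l : ℝ) = l + err n * l := by
      unfold err; ring
    rw [← this]; exact hAB
  have hε := err_pos n
  generalize err n = ε at *
  set F : ℝ := (n.factorial : ℝ)
  have hF0 : 0 < F := by linarith
  have hf0 : (0 : ℝ) < f := by linarith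
  have hl0 : (0 : ℝ) < l := by linarith
  set u : ℝ := (unlabelled P : ℝ)
  set b : ℝ := (labelled P : ℝ)
  have hu0 : 0 ≤ u := Nat.cast_nonneg _
  have hb0 : 0 ≤ b := Nat.cast_nonneg _
  have h3F : F * u + F * unlabelled (fun M => ¬ P M) ≤ F * f := by
    rw [← mul_add]
    exact mul_le_mul_of_nonneg_left h3R hF0.le
  have h6 : F * u ≤ b + ε * l := by linarith
  have h7 : u / f = (F * u) / (F * f) := by
    rw [mul_div_mul_left _ _ hF0.ne']
  rw [h7, abs_le]
  have hA0 : 0 < F * f := by positivity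
  constructor
  · -- lower bound
    have h8 : b / l - ε ≤ b / (F * f) := by
      rw [sub_le_iff_le_add, div_add' _ _ _ hA0.ne', div_le_div_iff₀ hl0 hA0]
      have h9 : b * (F * f) ≤ b * (l + ε * l) := mul_le_mul_of_nonneg_left hAB' hb0
      have h10 : b * (ε * l) ≤ ε * (F * f) * l := by
        calc b * (ε * l) ≤ l * (ε * l) := mul_le_mul_of_nonneg_right h5R (by positivity)
          _ ≤ (F * f) * (ε * l) := mul_le_mul_of_nonneg_right hBA (by positivity)
          _ = _ := by ring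
      nlinarith
    have h11 : b / (F * f) ≤ (F * u) / (F * f) := div_le_div_of_nonneg_right h1R hA0.le
    linarith
  · -- upper bound
    have h8 : (F * u) / (F * f) ≤ (b + ε * l) / (F * f) := div_le_div_of_nonneg_right h6 hA0.le
    have h9 : (b + ε * l) / (F * f) ≤ (b + ε * l) / l :=
      div_le_div_of_nonneg_left (by positivity) hl0 hBA
    have h10 : (b + ε * l) / l = b / l + ε := by
      rw [add_div, mul_div_cancel_right₀ _ hl0.ne']
    linarith

/-- The limit. -/
theorem limit : Filter.Tendsto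
    (fun n : ℕ => (unlabelled (fun M : Mat n => Asymmetric M) : ℝ) /
      (unlabelled (fun _ : Mat n => True) : ℝ)) Filter.atTop (nhds 1) := by
  obtain ⟨n₀, hn₀⟩ := classes
  have hlow : Filter.Tendsto (fun n : ℕ => 1 - (1 / 2 : ℝ) ^ n) Filter.atTop (nhds (1 - 0)) :=
    (tendsto_pow_atTop_nhds_zero_of_lt_one (by norm_num) (by norm_num)).const_sub 1
  rw [sub_zero] at hlow
  refine tendsto_of_tendsto_of_tendsto_of_le_of_le' hlow tendsto_const_nhds ?_ ?_
  · filter_upwards [Filter.eventually_ge_atTop n₀] with n hn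
    obtain ⟨⟨-, herr⟩, hall, -⟩ := hn₀ n hn
    obtain ⟨h1, -, -, -⟩ := hall (fun _ => True) isoClosed_true (fun _ _ => trivial)
    have h2 := unlabelled_split_le (fun _ : Mat n => True)
    have h3 : unlabelled (fun M : Mat n => True ∧ Asymmetric M) =
        unlabelled (fun M : Mat n => Asymmetric M) := unlabelled_congr (fun M => ⟨fun h => h.2, fun h => ⟨trivial, h⟩⟩)
    rw [h3] at h2
    have hf1 : 1 ≤ unlabelled (fun _ : Mat n => True) := one_le_unlabelled (M := freeM n) trivial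
    have hf : (1 : ℝ) ≤ unlabelled (fun _ : Mat n => True) := by exact_mod_cast hf1
    have h2R : (unlabelled (fun _ : Mat n => True) : ℝ) ≤
        unlabelled (fun M : Mat n => Asymmetric M) +
        unlabelled (fun M : Mat n => True ∧ ¬ Asymmetric M) := by exact_mod_cast h2
    rw [le_div_iff₀ (by linarith)]
    have h4 : (2 : ℝ) ^ (-((2 : ℝ) ^ n / (n : ℝ) ^ 7)) * unlabelled (fun _ : Mat n => True) ≤
        (1 / 2 : ℝ) ^ n * unlabelled (fun _ : Mat n => True) :=
      mul_le_mul_of_nonneg_right herr (by linarith)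
    linarith
  · filter_upwards with n
    have h1 : unlabelled (fun M : Mat n => Asymmetric M) ≤ unlabelled (fun _ : Mat n => True) :=
      unlabelled_mono (fun _ _ => trivial)
    have h2 : (unlabelled (fun M : Mat n => Asymmetric M) : ℝ) ≤
        unlabelled (fun _ : Mat n => True) := by exact_mod_cast h1
    exact div_le_one_of_le₀ h2 (Nat.cast_nonneg _)

end Pool.Agent.Lib.MP_ea4949_co.H23
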